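import Pool.Agent.H5.DPG.Stmts

/-!
Board `dpg`, row DMW: a region won by `j` is won by `j` in every solution.
-/

set_option autoImplicit false

namespace Pool.DPG

open Filter TMLib Pool.PG

theorem dmw_unique {j : Bool} {q : ℕ → ℕ} (h1 : WonP j q) (h2 : WonP (!j) q) : False := by
  obtain ⟨p, f1, e1, c1⟩ := h1
  obtain ⟨p', f2, e2, c2⟩ := h2
  obtain ⟨n, hn, hn'⟩ := (f1.and_eventually e2).exists
  obtain ⟨m, hm, hm'⟩ := (f2.and_eventually e1).exists
  have hp : p = p' := by omega
  subst hp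
  rw [c1] at c2
  cases j <;> simp at c2

theorem dmw_thm : DMWStmt := by
  intro V own pri E S B j W σ hD hsol v hv
  obtain ⟨hBS, htrap, τ, hB⟩ := hD
  by_contra hne
  have hneg : ∀ b : Bool, b ≠ j ↔ b = !j := by intro b; cases b <;> cases j <;> simp
  have hWv : W v = !j := (hneg _).1 hne
  let x : ℕ → V := fun n => Nat.rec v (fun _ u => if own u = j then τ u else σ u) n
  have hx1 : ∀ n, x (n + 1) = if own (x n) = j then τ (x n) else σ (x n) := fun n => rfl
  have hx0 : x 0 = v := rfl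
  have hinv : ∀ n, x n ∈ B ∧ W (x n) = !j := by
    intro n
    induction n with
    | zero => exact ⟨hv, hWv⟩
    | succ n ih =>
      rw [hx1]
      by_cases ho : own (x n) = j
      · rw [if_pos ho]
        have h1 := hB.mem _ ih.1
        refine ⟨h1.1, ?_⟩
        rw [hsol.trap _ (hBS ih.1) (by rw [ih.2, ho]; cases j <;> simp) _ (hBS h1.1) h1.2, ih.2]
      · rw [if_neg ho]
        have h1 := hsol.mem _ (hBS ih.1)
        refine ⟨htrap _ ih.1 ho _ h1.1 h1.2, ?_⟩
        rw [hsol.stay _ (hBS ih.1) (by rw [ih.2, (hneg _).1 ho]), ih.2]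
  have hE : ∀ n, E (x n) (x (n + 1)) := by
    intro n
    rw [hx1]
    by_cases ho : own (x n) = j
    · rw [if_pos ho]; exact (hB.mem _ (hinv n).1).2
    · rw [if_neg ho]; exact (hsol.mem _ (hBS (hinv n).1)).2
  have w1 : WonP j (fun n => pri (x n)) := by
    refine hB.won v hv x hx0 (fun n => ⟨(hinv n).1, hE n⟩) (fun n hn => ?_)
    rw [hx1, if_pos hn]
  have w2 : WonP (W v) (fun n => pri (x n)) := by
    refine hsol.won v (hBS hv) x hx0 (fun n => ⟨hBS (hinv n).1, hE n⟩) (fun n hn => ?_)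
    rw [hx1, if_neg ((hneg _).2 (hn.trans hWv))]
  rw [hWv] at w2
  exact dmw_unique w1 w2

end Pool.DPG
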