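import Pool.Agent.H5.DPG.Stmts

/-!
Board `dpg`, row ZTP: everything outside of the attractor of the top priority is won by its player.
-/

set_option autoImplicit false

namespace Pool.DPG

open Filter TMLib Pool.PG

theorem ztp_shift {i : Bool} {q : ℕ → ℕ} (k : ℕ) (h : WonP i (fun n => q (n + k))) :
    WonP i q := by
  obtain ⟨p, h1, h2, h3⟩ := h
  refine ⟨p, ?_, ?_, h3⟩
  · rw [frequently_atTop] at h1 ⊢
    intro a
    obtain ⟨b, hb, hb'⟩ := h1 a
    exact ⟨b + k, by omega, hb'⟩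
  · rw [eventually_atTop] at h2 ⊢
    obtain ⟨a, ha⟩ := h2
    refine ⟨a + k, fun b hb => ?_⟩
    have h4 := ha (b - k) (by omega)
    have e : b - k + k = b := by omega
    simpa [e] using h4

theorem ztp_reach {V : Type} {own : V → Bool} {E : V → V → Prop} {i : Bool} {S U A : Finset V}
    {α : V → V} {ρ : V → ℕ}
    (a2 : ∀ v ∈ A, v ∉ U → own v = i → α v ∈ A ∧ E v (α v) ∧ ρ (α v) < ρ v)
    (a3 : ∀ v ∈ A, v ∉ U → own v ≠ i → ∀ w ∈ S, E v w → w ∈ A ∧ ρ w < ρ v)
    (x : ℕ → V) (hx : ∀ n, x n ∈ S ∧ E (x n) (x (n + 1)))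
    (hf : ∀ n, x n ∈ A → x n ∉ U → own (x n) = i → x (n + 1) = α (x n)) :
    ∀ (r n : ℕ), x n ∈ A → ρ (x n) ≤ r → ∃ m, n ≤ m ∧ x m ∈ U := by
  have step : ∀ n, x n ∈ A → x n ∉ U → x (n + 1) ∈ A ∧ ρ (x (n + 1)) < ρ (x n) := by
    intro n hn hU
    by_cases ho : own (x n) = i
    · have h1 := a2 _ hn hU ho
      rw [hf n hn hU ho]
      exact ⟨h1.1, h1.2.2⟩
    · exact a3 _ hn hU ho _ (hx (n + 1)).1 (hx n).2
  intro r
  induction r with
  | zero =>
    intro n hn hr
    by_cases hU : x n ∈ U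
    · exact ⟨n, le_rfl, hU⟩
    · have h1 := (step n hn hU).2
      omega
  | succ r ih =>
    intro n hn hr
    by_cases hU : x n ∈ U
    · exact ⟨n, le_rfl, hU⟩
    · obtain ⟨h1, h2⟩ := step n hn hU
      obtain ⟨m, hm, hm'⟩ := ih (n + 1) h1 (by omega)
      exact ⟨m, by omega, hm'⟩

open Classical in
theorem ztp_thm : ZTPStmt := by
  intro V own pri E S A i p W σ htot hmin hi hA hsol hW
  obtain ⟨hUA, hAS, ⟨α, ρ, a2, a3⟩, a4, a5⟩ := hA
  have hmem : ∀ v, v ∈ S \ A ↔ v ∈ S ∧ v ∉ A := by intro v; simp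
  obtain ⟨s, hs⟩ : ∃ s : V → V, ∀ v ∈ S, s v ∈ S ∧ E v (s v) := by
    refine ⟨fun v => if hv : v ∈ S then (htot v hv).choose else v, fun v hv => ?_⟩
    simp only [hv, dif_pos]
    exact (htot v hv).choose_spec
  refine ⟨fun v => if v ∈ A then
    (if v ∉ (S.filter fun v => pri v = p) ∧ own v = i then α v else s v) else σ v,
    ?_, ?_, ?_, ?_⟩
  · intro v hv
    by_cases hvA : v ∈ A
    · simp only [hvA, if_true]
      by_cases hc : v ∉ (S.filter fun v => pri v = p) ∧ own v = i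
      · rw [if_pos hc]
        have h1 := a2 v hvA hc.1 hc.2
        exact ⟨hAS h1.1, h1.2.1⟩
      · rw [if_neg hc]
        exact hs v hv
    · simp only [hvA, if_false]
      have h1 := hsol.mem v ((hmem v).2 ⟨hv, hvA⟩)
      exact ⟨((hmem _).1 h1.1).1, h1.2⟩
  · intro v hv _; rfl
  · intro v hv _ w hw _; rfl
  · intro v hv x hx0 hx hfol
    by_cases hfr : ∀ N, ∃ n, N ≤ n ∧ x n ∈ A
    · refine ⟨p, ?_, ?_, hi⟩
      · rw [frequently_atTop]
        intro N
        obtain ⟨n, hn, hnA⟩ := hfr N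
        obtain ⟨m, hm, hmU⟩ := ztp_reach a2 a3 x hx (by
          intro k hk hkU hko
          have h1 := hfol k hko
          simp only [hk, if_true] at h1
          rw [if_pos ⟨hkU, hko⟩] at h1
          exact h1) (ρ (x n)) n hnA le_rfl
        exact ⟨m, by omega, (Finset.mem_filter.1 hmU).2⟩
      · exact Eventually.of_forall fun n => hmin _ (hx n).1
    · push Not at hfr
      obtain ⟨N, hN⟩ := hfr
      apply ztp_shift N
      have hN0 : x N ∈ S \ A := (hmem _).2 ⟨(hx N).1, hN N le_rfl⟩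
      have h1 := hsol.won (x N) hN0 (fun n => x (n + N)) (by simp) (by
        intro n
        refine ⟨(hmem _).2 ⟨(hx _).1, hN _ (by omega)⟩, ?_⟩
        have h2 := (hx (n + N)).2
        have e : n + N + 1 = n + 1 + N := by omega
        rw [e] at h2
        exact h2) (by
        intro n hn
        rw [hW _ hN0] at hn
        have h2 := hfol (n + N) hn
        have h3 : x (n + N) ∉ A := hN _ (by omega)
        simp only [h3, if_false] at h2
        have e : n + N + 1 = n + 1 + N := by omega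
        rw [e] at h2
        exact h2)
      rw [hW _ hN0] at h1
      exact h1

end Pool.DPG
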